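import Mathlib
import Pool.Agent.H686R3.LatticeFO

/-!
# Sublattices of subspace lattices over division rings: not finitely axiomatizable

`K` is the class of all lattices that embed (preserving joins and meets) in the lattice of all
subspaces of a left vector space over a division ring.  No finite set of first-order sentences in
the language of lattices has `K` as its class of models.

The lattices `L_p = Sub((ℤ/p)³) × Sub(E³)`, `E` a nonprincipal ultraproduct of the prime fields
(a field of characteristic zero), are not in `K`, but a nonprincipal ultraproduct of them embeds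
in a subspace lattice over a field of characteristic zero.
-/

namespace Pool.Agent.Results.MP_d4b74c_al.NotFinitelyAxiomatizable

open FirstOrder Filter Pool.Agent.H686R3

/-- `L` belongs to the class `K`: there are a division ring `D`, a left `D`-vector space `V` (of any
dimension) and an injective map from `L` to the lattice of all `D`-subspaces of `V` which
preserves binary joins and meets. -/
def InK (L : Type) [Lattice L] : Prop :=
  ∃ (D : Type) (_ : DivisionRing D) (V : Type) (_ : AddCommGroup V) (_ : Module D V)
    (f : LatticeHom L (Submodule D V)), Function.Injective f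

/-- No finite set of first-order sentences of the language of lattices has the class `K` as its
class of models. -/
theorem result :
    ¬ ∃ Sg : Set latLang.Sentence, Sg.Finite ∧
      ∀ (L : Type) [Lattice L], InK L ↔ ∀ φ ∈ Sg, L ⊨ φ := by
  rintro ⟨Sg, hfin, hSg⟩
  have h : ∀ φ ∈ Sg, ∀ᶠ i in (UU : Filter ℕ), LL i ⊨ φ := by
    intro φ hφ
    refine core φ fun M _ hM => ?_
    obtain ⟨F, hF, V, hV1, hV2, f, hf⟩ := hM
    exact (hSg M).mp ⟨F, inferInstance, V, hV1, hV2, f, hf⟩ φ hφ
  have h2 : ∀ᶠ i in (UU : Filter ℕ), ∀ φ ∈ Sg, LL i ⊨ φ :=
    (Filter.eventually_all_finite hfin).mpr h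
  obtain ⟨i, hi⟩ := h2.exists
  obtain ⟨D, hD, V, hV1, hV2, f, hf⟩ := (hSg (LL i)).mpr hi
  exact LL_not_embeds i f hf

end Pool.Agent.Results.MP_d4b74c_al.NotFinitelyAxiomatizable
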